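import Pool.Agent.H500.TH.Stm

/-!
# Project TH of helper500, part A4: the linear algebra over a number field

Adapted from `Pool/Agent/H253/HC/BadC.lean`.
-/

set_option autoImplicit false
set_option linter.unusedSectionVars false

open Matrix

namespace Pool.Agent.H720.TH.BadC

section core

variable {k : Type} [Field k] [Infinite k] {X V T : Type} [AddCommGroup X] [Module k X] [Fintype V]
  [Fintype T] [DecidableEq V] [DecidableEq T]

/-- the matrix of the rows `f t` -/
def mat (M : V → T → X →ₗ[k] k) (f : T → V) (x : X) : Matrix T T k :=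
  Matrix.of fun t s => M (f t) s x

theorem exists_lam (A : Matrix T T k) : ∃ lam : k, (A + lam • (1 : Matrix T T k)).det ≠ 0 := by
  by_contra h
  push Not at h
  have h1 : (-A).charpoly = 0 := by
    apply Polynomial.funext
    intro r
    rw [Matrix.eval_charpoly, Polynomial.eval_zero]
    have := h r
    rw [add_comm] at this
    rw [sub_neg_eq_add, Matrix.scalar_apply, ← Matrix.smul_one_eq_diagonal]
    exact this
  exact (Matrix.charpoly_monic (-A)).ne_zero h1

omit [Fintype V] [DecidableEq T] in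
/-- injections into `Vs` which avoid `v'` and have a prescribed value -/
theorem exists_inj (Vs : Finset V) (hc : Fintype.card T < Vs.card) (v' : V) :
    ∃ g : T → V, Function.Injective g ∧ (∀ t, g t ∈ Vs) ∧ ∀ t, g t ≠ v' := by
  have h1 : Fintype.card T ≤ (Vs.erase v').card := by
    have := Finset.pred_card_le_card_erase (s := Vs) (a := v')
    omega
  have h2 : Fintype.card T ≤ Fintype.card (Vs.erase v') := by
    rwa [Fintype.card_coe]
  obtain ⟨e⟩ := Function.Embedding.nonempty_of_card_le h2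
  refine ⟨fun t => (e t : V), fun a b hab => e.injective (Subtype.ext hab), fun t => ?_, fun t => ?_⟩
  · exact Finset.mem_of_mem_erase (e t).2
  · exact Finset.ne_of_mem_erase (e t).2

omit [Fintype V] [DecidableEq T] in
theorem exists_inj2 (Vs : Finset V) (hc : Fintype.card T < Vs.card) (v v' : V) (hv : v ∈ Vs)
    (hvv : v ≠ v') (s : T) :
    ∃ g : T → V, Function.Injective g ∧ (∀ t, g t ∈ Vs) ∧ (∀ t, g t ≠ v') ∧ g s = v := by
  obtain ⟨g, g1, g2, g3⟩ := exists_inj (T := T) Vs hc v'
  refine ⟨fun t => Equiv.swap (g s) v (g t), fun a b hab => g1 ((Equiv.swap (g s) v).injective hab),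
    fun t => ?_, fun t => ?_, ?_⟩
  · change Equiv.swap (g s) v (g t) ∈ Vs
    rw [Equiv.swap_apply_def]
    split_ifs
    · exact hv
    · exact g2 s
    · exact g2 t
  · change Equiv.swap (g s) v (g t) ≠ v'
    rw [Equiv.swap_apply_def]
    split_ifs
    · exact hvv
    · exact g3 s
    · exact g3 t
  · exact Equiv.swap_apply_left _ _

omit [Fintype V] in
theorem core (Vs : Finset V) (hc : Fintype.card T < Vs.card) (L : V → X →ₗ[k] k)
    (M : V → T → X →ₗ[k] k)
    (hsurj : ∀ y : V → T → k, ∃ x, ∀ v ∈ Vs, ∀ s, M v s x = y v s)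
    (hsol : ∀ (f : T → V) (x : X), Function.Injective f → (∀ t, f t ∈ Vs) → (mat M f x).det ≠ 0 →
      ∃ a : T → k, ∀ v, L v x = ∑ s, a s * M v s x) :
    ∃ c : T → k, ∀ v x, L v x = ∑ s, c s * M v s x := by
  -- the matrix of a shifted vector
  have hshift : ∀ (f : T → V) (x x0 : X), (∀ t s, M (f t) s x0 = if t = s then 1 else 0) →
      ∃ lam : k, (mat M f (x + lam • x0)).det ≠ 0 := by
    intro f x x0 h
    obtain ⟨lam, hl⟩ := exists_lam (mat M f x)
    refine ⟨lam, ?_⟩
    have e : mat M f (x + lam • x0) = mat M f x + lam • (1 : Matrix T T k) := by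
      ext t s
      simp only [mat, Matrix.of_apply, map_add, map_smul, h, Matrix.add_apply, Matrix.smul_apply,
        Matrix.one_apply, smul_eq_mul]
    rw [e]
    exact hl
  have hdet1 : ∀ (f : T → V) (x0 : X), (∀ t s, M (f t) s x0 = if t = s then 1 else 0) →
      (mat M f x0).det ≠ 0 := by
    intro f x0 h
    have e : mat M f x0 = 1 := by
      ext t s
      simp only [mat, Matrix.of_apply, h, Matrix.one_apply]
    rw [e, Matrix.det_one]
    exact one_ne_zero
  -- prescribed rows
  have hrow : ∀ (f : T → V) (v' : V) (y : T → k), Function.Injective f → (∀ t, f t ∈ Vs) →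
      (∀ t, f t ≠ v') → v' ∈ Vs → ∃ x0 : X, (∀ t s, M (f t) s x0 = if t = s then 1 else 0) ∧
        ∀ s, M v' s x0 = y s := by
    intro f v' y hf hfV hfv hv'
    obtain ⟨x0, h0⟩ := hsurj fun v s => if v = v' then y s else if v = f s then 1 else 0
    refine ⟨x0, fun t s => ?_, fun s => ?_⟩
    · rw [h0 _ (hfV t), if_neg (hfv t)]
      by_cases h : t = s
      · rw [if_pos h, if_pos (by rw [h])]
      · rw [if_neg h, if_neg (fun h2 => h (hf h2))]
    · rw [h0 _ hv', if_pos rfl]
  -- (a)
  have ha0 : ∀ v ∈ Vs, ∀ x : X, (∀ s, M v s x = 0) → L v x = 0 := by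
    intro v hv x hx
    obtain ⟨f, f1, f2, f3⟩ := exists_inj (T := T) Vs hc v
    obtain ⟨x0, h0, h0'⟩ := hrow f v (fun _ => 0) f1 f2 f3 hv
    obtain ⟨lam, hl⟩ := hshift f x x0 h0
    obtain ⟨a, ha⟩ := hsol f _ f1 f2 hl
    obtain ⟨a', ha'⟩ := hsol f _ f1 f2 (hdet1 f x0 h0)
    have e1 : L v (x + lam • x0) = 0 := by
      rw [ha v]
      refine Finset.sum_eq_zero fun s _ => ?_
      rw [map_add, map_smul, hx, h0', smul_zero, add_zero, mul_zero]
    have e2 : L v x0 = 0 := by
      rw [ha' v]
      refine Finset.sum_eq_zero fun s _ => ?_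
      rw [h0', mul_zero]
    rw [map_add, map_smul, e2, smul_zero, add_zero] at e1
    exact e1
  have ha : ∀ v ∈ Vs, ∃ c : T → k, ∀ x, L v x = ∑ s, c s * M v s x := by
    intro v hv
    choose e he using fun s : T => hsurj fun _ s' => if s = s' then 1 else 0
    refine ⟨fun s => L v (e s), fun x => ?_⟩
    have h1 := ha0 v hv (x - ∑ s, M v s x • e s) (fun s' => by
      rw [map_sub, map_sum]
      simp only [map_smul, he _ v hv, smul_eq_mul, mul_ite, mul_one, mul_zero]
      rw [Finset.sum_ite_eq' Finset.univ s' (fun s => M v s x), if_pos (Finset.mem_univ _), sub_self])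
    rw [map_sub, map_sum, sub_eq_zero] at h1
    rw [h1]
    refine Finset.sum_congr rfl fun s _ => ?_
    rw [map_smul, smul_eq_mul, mul_comm]
  choose! c hcc using ha
  -- (b)
  have hb : ∀ v ∈ Vs, ∀ v' ∈ Vs, v ≠ v' → ∀ s, c v s = c v' s := by
    intro v hv v' hv' hvv s
    obtain ⟨f, f1, f2, f3, f4⟩ := exists_inj2 (T := T) Vs hc v v' hv hvv s
    obtain ⟨x0, h0, h0'⟩ := hrow f v' (fun s' => if s = s' then 1 else 0) f1 f2 f3 hv'
    obtain ⟨a, ha⟩ := hsol f _ f1 f2 (hdet1 f x0 h0)
    have e1 : ∀ (d : T → k), ∑ s', d s' * (if s = s' then (1 : k) else 0) = d s := by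
      intro d
      simp
    have h2 : ∀ s', M v s' x0 = if s = s' then 1 else 0 := by
      intro s'
      rw [← f4, h0]
    have r1 := hcc v hv x0
    have r2 := hcc v' hv' x0
    have r3 := ha v
    have r4 := ha v'
    simp only [h2, h0', e1] at r1 r2 r3 r4
    rw [← r1, ← r2, r3, r4]
  obtain ⟨v0, hv0⟩ : Vs.Nonempty := by
    rw [← Finset.card_pos]
    omega
  have hb' : ∀ v ∈ Vs, ∀ x, L v x = ∑ s, c v0 s * M v s x := by
    intro v hv x
    rw [hcc v hv]
    refine Finset.sum_congr rfl fun s _ => ?_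
    by_cases h : v = v0
    · rw [h]
    · rw [hb v hv v0 hv0 h s]
  refine ⟨c v0, fun v x => ?_⟩
  -- (c)
  obtain ⟨f, f1, f2, f3⟩ := exists_inj (T := T) Vs hc v0
  obtain ⟨x0, h0, -⟩ := hrow f v0 (fun _ => 0) f1 f2 f3 hv0
  have key : ∀ x, (mat M f x).det ≠ 0 → L v x = ∑ s, c v0 s * M v s x := by
    intro x hx
    obtain ⟨a, ha⟩ := hsol f x f1 f2 hx
    have h1 : (mat M f x) *ᵥ a = (mat M f x) *ᵥ (c v0) := by
      funext t
      have r1 := ha (f t)
      have r2 := hb' (f t) (f2 t) x
      rw [r1] at r2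
      simp only [Matrix.mulVec, dotProduct, mat, Matrix.of_apply]
      rw [Finset.sum_congr rfl fun s _ => mul_comm (M (f t) s x) (a s), r2]
      exact Finset.sum_congr rfl fun s _ => mul_comm _ _
    have h2 : a = c v0 := by
      have hu : IsUnit (mat M f x).det := isUnit_iff_ne_zero.2 hx
      exact Matrix.mulVec_injective_of_isUnit ((Matrix.isUnit_iff_isUnit_det _).2 hu) h1
    rw [ha v, h2]
  obtain ⟨lam, hl⟩ := hshift f x x0 h0
  have k1 := key _ hl
  have k2 := key _ (hdet1 f x0 h0)
  simp only [map_add, map_smul, smul_eq_mul] at k1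
  rw [k2, Finset.mul_sum] at k1
  have k3 : ∑ s, c v0 s * (M v s x + lam * M v s x0) =
      ∑ s, c v0 s * M v s x + ∑ s, lam * (c v0 s * M v s x0) := by
    rw [← Finset.sum_add_distrib]
    refine Finset.sum_congr rfl fun s _ => ?_
    ring
  rw [k3] at k1
  linear_combination k1

end core

section red

variable {A : Type} [CommRing A] {ι V T : Type} [Fintype ι] [Fintype V] [Fintype T] [DecidableEq T]

/-- a linear form with coefficients in `A` -/
def lin {R : Type} [CommRing R] (π : A →+* R) (w : ι → A) (x : ι → R) : R := ∑ i, π (w i) * x i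

/-- the matrix -/
def AA {R : Type} [CommRing R] (π : A →+* R) (M : V → T → ι → A) (f : T → V) (x : ι → R) :
    Matrix T T R :=
  Matrix.of fun t s => lin π (M (f t) s) x

/-- the bordered determinant -/
def DD {R : Type} [CommRing R] (π : A →+* R) (L : V → ι → A) (M : V → T → ι → A) (f : T → V) (v : V)
    (x : ι → R) : R :=
  (AA π M f x).det * lin π (L v) x -
    ∑ s, ((AA π M f x).adjugate *ᵥ (fun t => lin π (L (f t)) x)) s * lin π (M v s) x

theorem lin_map {R S : Type} [CommRing R] [CommRing S] (φ : R →+* S) (π : A →+* R) (w : ι → A)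
    (x : ι → R) : φ (lin π w x) = lin (φ.comp π) w (fun i => φ (x i)) := by
  simp [lin]

theorem DD_map {R S : Type} [CommRing R] [CommRing S] (φ : R →+* S) (π : A →+* R) (L : V → ι → A)
    (M : V → T → ι → A) (f : T → V) (v : V) (x : ι → R) :
    φ (DD π L M f v x) = DD (φ.comp π) L M f v (fun i => φ (x i)) := by
  have h1 : AA (φ.comp π) M f (fun i => φ (x i)) = φ.mapMatrix (AA π M f x) := by
    ext t s
    simp only [AA, Matrix.of_apply, RingHom.mapMatrix_apply, Matrix.map_apply, lin_map]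
  unfold DD
  rw [h1, ← RingHom.map_adjugate, ← RingHom.map_det, map_sub, map_mul, map_sum, lin_map]
  congr 1
  refine Finset.sum_congr rfl fun s _ => ?_
  rw [map_mul, lin_map]
  congr 1
  simp only [Matrix.mulVec, dotProduct, RingHom.mapMatrix_apply, Matrix.map_apply, map_sum, map_mul,
    lin_map]

/-- solvable systems -/
theorem DD_zero {R : Type} [CommRing R] (π : A →+* R) (L : V → ι → A) (M : V → T → ι → A)
    (f : T → V) (v : V) (x : ι → R) (a : T → R)
    (h : ∀ v, lin π (L v) x = ∑ s, a s * lin π (M v s) x) : DD π L M f v x = 0 := by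
  have h1 : (fun t => lin π (L (f t)) x) = (AA π M f x) *ᵥ a := by
    funext t
    rw [h (f t)]
    simp only [Matrix.mulVec, dotProduct, AA, Matrix.of_apply]
    exact Finset.sum_congr rfl fun s _ => mul_comm _ _
  unfold DD
  rw [h1, Matrix.mulVec_mulVec, Matrix.adjugate_mul, Matrix.smul_mulVec, Matrix.one_mulVec, h v,
    Finset.mul_sum, ← Finset.sum_sub_distrib]
  refine Finset.sum_eq_zero fun s _ => ?_
  simp only [Pi.smul_apply, smul_eq_mul]
  ring

theorem DD_solve {k : Type} [Field k] (π : A →+* k) (L : V → ι → A) (M : V → T → ι → A) (f : T → V)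
    (x : ι → k) (hdet : (AA π M f x).det ≠ 0) (h : ∀ v, DD π L M f v x = 0) :
    ∃ a : T → k, ∀ v, lin π (L v) x = ∑ s, a s * lin π (M v s) x := by
  refine ⟨fun s => ((AA π M f x).det)⁻¹ * ((AA π M f x).adjugate *ᵥ (fun t => lin π (L (f t)) x)) s,
    fun v => ?_⟩
  have h1 := h v
  unfold DD at h1
  rw [sub_eq_zero] at h1
  have h2 : lin π (L v) x = ((AA π M f x).det)⁻¹ * ((AA π M f x).det * lin π (L v) x) := by
    rw [← mul_assoc, inv_mul_cancel₀ hdet, one_mul]
  rw [h2, h1, Finset.mul_sum]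
  refine Finset.sum_congr rfl fun s _ => ?_
  ring

/-- the linear form as a linear map -/
noncomputable def linL {k : Type} [Field k] (π : A →+* k) (w : ι → A) : (ι → k) →ₗ[k] k where
  toFun x := lin π w x
  map_add' x y := by
    simp only [lin, Pi.add_apply, mul_add, Finset.sum_add_distrib]
  map_smul' c x := by
    simp only [lin, Pi.smul_apply, smul_eq_mul, RingHom.id_apply, Finset.mul_sum]
    exact Finset.sum_congr rfl fun i _ => by ring

/-- surjectivity -/
theorem surj_of_indep [IsDomain A] {k : Type} [Field k] [Algebra A k] [IsFractionRing A k]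
    [DecidableEq V] (Vs : Finset V) (M : V → T → ι → A)
    (hind : ∀ n : V → T → A, (∀ v, v ∉ Vs → n v = 0) →
      (∀ i, ∑ v, ∑ s, n v s * M v s i = 0) → n = 0) (y : V → T → k) :
    ∃ x : ι → k, ∀ v ∈ Vs, ∀ s, linL (algebraMap A k) (M v s) x = y v s := by
  classical
  let B : Matrix (Vs × T) ι k := Matrix.of fun p i => algebraMap A k (M p.1 p.2 i)
  have hli : LinearIndependent A B.row := by
    rw [Fintype.linearIndependent_iff]
    intro g hg p
    have h0 := hind (fun v s => if h : v ∈ Vs then g (⟨v, h⟩, s) else 0)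
      (fun v hv => by funext s; simp [hv]) (fun i => by
        have h1 : (∑ p, g p • B.row p) i = (0 : k) := congrFun hg i
        have h2 : algebraMap A k (∑ v, ∑ s, (if h : v ∈ Vs then g (⟨v, h⟩, s) else 0) * M v s i)
            = 0 := by
          rw [← h1]
          simp only [map_sum, map_mul]
          rw [Finset.sum_apply, Fintype.sum_prod_type, ← Finset.sum_subset (Finset.subset_univ Vs)
            (fun v _ hv => by simp [hv]), ← Finset.sum_coe_sort Vs]
          refine Finset.sum_congr rfl fun v _ => Finset.sum_congr rfl fun s _ => ?_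
          simp [B, Matrix.row, Algebra.smul_def]
        exact (map_eq_zero_iff _ (IsFractionRing.injective A k)).1 h2)
    have h3 := congrFun (congrFun h0 p.1) p.2
    simpa using h3
  have hli2 : LinearIndependent k B.row := (LinearIndependent.iff_fractionRing A k).1 hli
  have hr := hli2.rank_matrix
  have htop : LinearMap.range B.mulVecLin = ⊤ := by
    apply Submodule.eq_top_of_finrank_eq
    rw [Module.finrank_pi]
    exact hr
  have : (fun p : Vs × T => y p.1 p.2) ∈ LinearMap.range B.mulVecLin := by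
    rw [htop]
    exact Submodule.mem_top
  obtain ⟨x, hx⟩ := this
  refine ⟨x, fun v hv s => ?_⟩
  have := congrFun hx (⟨v, hv⟩, s)
  exact this

end red

section sch

open NumberField

/-- a nonzero integer of a number field is not in the kernel of a homomorphism to `ZMod r` for large `r` -/
theorem ker_large (C : Type) [Field C] [NumberField C] (a : 𝓞 C) (ha : a ≠ 0) :
    ∃ r0 : ℕ, ∀ r : ℕ, r.Prime → r0 < r → ∀ π : 𝓞 C →+* ZMod r, π a ≠ 0 := by
  refine ⟨Ideal.absNorm (Ideal.span {a}), fun r hr hrr π h => ?_⟩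
  have h0 : Ideal.absNorm (Ideal.span {a}) ≠ 0 := by
    intro h1
    rw [Ideal.absNorm_eq_zero_iff] at h1
    exact ha (Ideal.span_singleton_eq_bot.1 h1)
  have h1 := Ideal.absNorm_mem (Ideal.span {a})
  rw [Ideal.mem_span_singleton] at h1
  obtain ⟨b, hb⟩ := h1
  have h2 := congrArg π hb
  rw [map_mul, h, zero_mul, map_natCast] at h2
  rw [ZMod.natCast_eq_zero_iff] at h2
  exact absurd (Nat.le_of_dvd (Nat.pos_of_ne_zero h0) h2) (by omega)

theorem sz (C : Type) [Field C] [NumberField C] {ι : Type} [Fintype ι] (D : MvPolynomial ι (𝓞 C))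
    (hD : D ≠ 0) : ∃ r0 : ℕ, ∀ r : ℕ, r.Prime → r0 < r → ∀ π : 𝓞 C →+* ZMod r,
    2 * {x : ι → ZMod r | MvPolynomial.eval₂Hom π x D = 0}.ncard ≤ r ^ Fintype.card ι := by
  classical
  set e := Fintype.equivFin ι with he
  set D' : MvPolynomial (Fin (Fintype.card ι)) (𝓞 C) := MvPolynomial.rename e D with hD'
  have hD0 : D' ≠ 0 := by
    rw [hD']
    intro h
    exact hD (MvPolynomial.rename_injective e e.injective (by rw [h, map_zero]))
  obtain ⟨m, hm⟩ := MvPolynomial.ne_zero_iff.1 hD0
  obtain ⟨r1, hker⟩ := ker_large C _ hm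
  refine ⟨max r1 (2 * D'.totalDegree), fun r hr hrr π => ?_⟩
  have := Fact.mk hr
  have hr1 : r1 < r := lt_of_le_of_lt (le_max_left _ _) hrr
  have hr2 : 2 * D'.totalDegree < r := lt_of_le_of_lt (le_max_right _ _) hrr
  set p : MvPolynomial (Fin (Fintype.card ι)) (ZMod r) := MvPolynomial.map π D' with hp
  have hp0 : p ≠ 0 := by
    rw [MvPolynomial.ne_zero_iff]
    refine ⟨m, ?_⟩
    rw [hp, MvPolynomial.coeff_map]
    exact hker r hr hr1 π
  have hdeg : p.totalDegree ≤ D'.totalDegree := by
    rw [hp]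
    unfold MvPolynomial.totalDegree
    exact Finset.sup_mono (MvPolynomial.support_map_subset _ _)
  have hsz := MvPolynomial.schwartz_zippel_totalDegree hp0 (Finset.univ : Finset (ZMod r))
  rw [Finset.card_univ, ZMod.card] at hsz
  set Z := Finset.filter (fun f => MvPolynomial.eval f p = 0)
    (Fintype.piFinset fun _ : Fin (Fintype.card ι) => (Finset.univ : Finset (ZMod r))) with hZ
  have hrpos : (0 : ℚ≥0) < r := by exact_mod_cast hr.pos
  have h1 : 2 * Z.card ≤ r ^ Fintype.card ι := by
    rw [div_le_div_iff₀ (by positivity) hrpos] at hsz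
    have h2 : Z.card * r ≤ p.totalDegree * r ^ Fintype.card ι := by exact_mod_cast hsz
    have h3 : 2 * Z.card * r ≤ r ^ Fintype.card ι * r := by
      calc 2 * Z.card * r = 2 * (Z.card * r) := by ring
        _ ≤ 2 * (p.totalDegree * r ^ Fintype.card ι) := Nat.mul_le_mul_left _ h2
        _ = (2 * p.totalDegree) * r ^ Fintype.card ι := by ring
        _ ≤ r * r ^ Fintype.card ι := Nat.mul_le_mul_right _ (by omega)
        _ = _ := by ring
    exact Nat.le_of_mul_le_mul_right h3 hr.pos
  refine le_trans (Nat.mul_le_mul_left 2 ?_) h1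
  have hinj : Function.Injective (fun x : ι → ZMod r => fun j => x (e.symm j)) := by
    intro x y hxy
    funext i
    have := congrFun hxy (e i)
    simpa using this
  rw [← Set.ncard_image_of_injective _ hinj, ← Set.ncard_coe_finset]
  refine Set.ncard_le_ncard ?_ (Finset.finite_toSet _)
  rintro _ ⟨x, hx, rfl⟩
  rw [Finset.mem_coe, hZ, Finset.mem_filter]
  refine ⟨Fintype.mem_piFinset.2 fun _ => Finset.mem_univ _, ?_⟩
  rw [hp, hD', MvPolynomial.eval_map, MvPolynomial.eval₂_rename]
  have h3 : (fun j => x (e.symm j)) ∘ e = x := by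
    funext i
    simp
  rw [h3]
  exact hx

/-- **S_BadC** -/
theorem badC (C : Type) [Field C] [NumberField C] (ι V T : Type) [Fintype ι] [Fintype V] [Fintype T]
    (Vs : Finset V) (L : V → ι → 𝓞 C) (M : V → T → ι → 𝓞 C) (hc : Fintype.card T < Vs.card)
    (hind : ∀ n : V → T → 𝓞 C, (∀ v, v ∉ Vs → n v = 0) →
      (∀ i, ∑ v, ∑ s, n v s * M v s i = 0) → n = 0)
    (hno : ¬ ∃ (m : 𝓞 C) (c : T → 𝓞 C), m ≠ 0 ∧ ∀ v i, m * L v i = ∑ s, c s * M v s i) :
    ∃ r0 : ℕ, ∀ r : ℕ, r.Prime → r0 < r → ∀ π : 𝓞 C →+* ZMod r,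
      2 * {x : ι → ZMod r | ∃ a : T → ZMod r, ∀ v, ∑ i, π (L v i) * x i =
        ∑ s, a s * ∑ i, π (M v s i) * x i}.ncard ≤ r ^ Fintype.card ι := by
  classical
  have h0 : ¬ ∀ (f : T → V) (x : ι → C), Function.Injective f → (∀ t, f t ∈ Vs) →
      (mat (fun v s => linL (algebraMap (𝓞 C) C) (M v s)) f x).det ≠ 0 →
      ∃ a : T → C, ∀ v, linL (algebraMap (𝓞 C) C) (L v) x =
        ∑ s, a s * linL (algebraMap (𝓞 C) C) (M v s) x := by
    intro hsol
    obtain ⟨c, hcc⟩ := core Vs hc (fun v => linL (algebraMap (𝓞 C) C) (L v))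
      (fun v s => linL (algebraMap (𝓞 C) C) (M v s)) (surj_of_indep Vs M hind) hsol
    obtain ⟨b, hb⟩ := IsLocalization.exist_integer_multiples_of_finite (nonZeroDivisors (𝓞 C)) c
    choose c' hc' using hb
    refine hno ⟨(b : 𝓞 C), c', nonZeroDivisors.coe_ne_zero b, fun v i => ?_⟩
    have h1 := hcc v (Pi.single i 1)
    have h2 : ∀ w : ι → 𝓞 C, linL (algebraMap (𝓞 C) C) w (Pi.single i (1 : C)) =
        algebraMap (𝓞 C) C (w i) := by
      intro w
      change ∑ j, algebraMap (𝓞 C) C (w j) * (Pi.single i (1 : C) : ι → C) j = _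
      rw [Finset.sum_eq_single i]
      · simp
      · intro j _ hj
        rw [Pi.single_eq_of_ne hj, mul_zero]
      · intro h
        exact absurd (Finset.mem_univ i) h
    simp only [h2] at h1
    have h3 : ∀ s, algebraMap (𝓞 C) C (c' s) = algebraMap (𝓞 C) C (b : 𝓞 C) * c s := by
      intro s
      have := hc' s
      rw [this, Algebra.smul_def]
    apply IsFractionRing.injective (𝓞 C) C
    rw [map_mul, map_sum, h1, Finset.mul_sum]
    refine Finset.sum_congr rfl fun s _ => ?_
    rw [map_mul, h3]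
    ring
  push Not at h0
  obtain ⟨f, x, -, -, hdet, hno2⟩ := h0
  have h1 : ∃ v, DD (algebraMap (𝓞 C) C) L M f v x ≠ 0 := by
    by_contra h
    push Not at h
    obtain ⟨a, ha⟩ := DD_solve (algebraMap (𝓞 C) C) L M f x hdet h
    obtain ⟨v, hv⟩ := hno2 a
    exact hv (ha v)
  obtain ⟨v, hv⟩ := h1
  set D : MvPolynomial ι (𝓞 C) := DD MvPolynomial.C L M f v (fun i => MvPolynomial.X i) with hD
  have hDe : ∀ (R : Type) [CommRing R] (π : 𝓞 C →+* R) (x : ι → R),
      MvPolynomial.eval₂Hom π x D = DD π L M f v x := by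
    intro R _ π x
    rw [hD, DD_map]
    have e1 : (MvPolynomial.eval₂Hom π x).comp MvPolynomial.C = π := by
      ext a
      simp
    rw [e1]
    congr 1
    funext i
    simp
  have hD0 : D ≠ 0 := by
    intro h
    apply hv
    rw [← hDe C (algebraMap (𝓞 C) C) x, h, map_zero]
  obtain ⟨r0, hr0⟩ := sz C D hD0
  refine ⟨r0, fun r hr hrr π => le_trans (Nat.mul_le_mul_left 2 ?_) (hr0 r hr hrr π)⟩
  have := Fact.mk hr
  refine Set.ncard_le_ncard ?_ (Set.toFinite _)
  rintro y ⟨a, ha⟩
  change MvPolynomial.eval₂Hom π y D = 0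
  rw [hDe]
  exact DD_zero π L M f v y a ha

end sch

/-- **PART A4** -/
theorem main : Pool.Agent.H500.TH.S_BadC := by
  intro C _ _ ι V T _ _ _ Vs L M hc hind hno
  exact badC C ι V T Vs L M hc hind hno

end Pool.Agent.H720.TH.BadC
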